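import Mathlib

set_option autoImplicit false

namespace Pool.Agent.Results.MP_222d4b_co.NullityTwo

open Polynomial

abbrev K := ZMod 2

/-- Fibonacci polynomials over `F_2`. -/
noncomputable def F : ℕ → K[X]
  | 0 => 0
  | 1 => 1
  | (n + 2) => X * F (n + 1) + F n

theorem F_zero : F 0 = 0 := by simp [F]
theorem F_one : F 1 = 1 := by simp [F]
theorem F_succ (n : ℕ) : F (n + 2) = X * F (n + 1) + F n := by simp [F]

theorem two_eq_zero : (2 : K[X]) = 0 := by
  have h : (2 : K) = 0 := by decide
  have h2 : (C (2 : K)) = (2 : K[X]) := rfl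
  rw [← h2, h, C_0]

theorem F_double (n : ℕ) : F (2 * n) = X * F n ^ 2 ∧ F (2 * n + 1) = F (n + 1) ^ 2 + F n ^ 2 := by
  induction n with
  | zero => simp [F]
  | succ n ih =>
    obtain ⟨h1, h2⟩ := ih
    have h3 : F (2 * (n + 1)) = X * F (n + 1) ^ 2 := by
      rw [show 2 * (n + 1) = 2 * n + 2 by ring, F_succ, h1, h2]
      linear_combination (X * F n ^ 2) * two_eq_zero
    refine ⟨h3, ?_⟩
    rw [show 2 * (n + 1) + 1 = (2 * n + 1) + 2 by ring, F_succ,
      show 2 * n + 1 + 1 = 2 * (n + 1) by ring, h3, h2, F_succ n]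
    linear_combination (-X * F (n+1) * F n) * two_eq_zero

theorem F_eval_one (n : ℕ) : (F (3 * n)).eval 1 = 0 := by
  have : ∀ n, (F (3 * n)).eval 1 = 0 ∧ (F (3 * n + 1)).eval 1 = 1 := by
    intro n
    induction n with
    | zero => simp [F]
    | succ n ih =>
      have h2 : (F (3 * n + 2)).eval 1 = 1 := by
        rw [F_succ]; simp [ih.1, ih.2]
      have h3 : (F (3 * n + 3)).eval 1 = 0 := by
        rw [show 3 * n + 3 = (3 * n + 1) + 2 by ring, F_succ]
        simp only [eval_add, eval_mul, eval_X, one_mul]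
        rw [h2, ih.2]; decide
      refine ⟨h3, ?_⟩
      rw [show 3 * (n + 1) + 1 = (3 * n + 2) + 2 by ring, F_succ]
      simp only [eval_add, eval_mul, eval_X, one_mul]
      rw [show 3 * n + 2 + 1 = 3 * n + 3 by ring, h2, h3]; simp
  exact (this n).1

theorem two_eq_zero' {L : Type*} [Field L] [Algebra K L] : (2 : L) = 0 := by
  have h : (2 : K) = 0 := by decide
  have h2 : algebraMap K L 2 = 2 := map_ofNat _ 2
  rw [← h2, h, map_zero]

/-- values at `t + t⁻¹`. -/
theorem F_eval {L : Type*} [Field L] [Algebra K L] (t : L) (ht : t ≠ 0) (n : ℕ) :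
    (t + t⁻¹) * aeval (t + t⁻¹) (F n) = t ^ n - (t⁻¹) ^ n := by
  have hi : t * t⁻¹ = 1 := mul_inv_cancel₀ ht
  generalize t⁻¹ = s at hi
  have : ∀ n, ((t + s) * aeval (t + s) (F n) = t ^ n - s ^ n) ∧
      ((t + s) * aeval (t + s) (F (n + 1)) = t ^ (n + 1) - s ^ (n + 1)) := by
    intro n
    induction n with
    | zero =>
      simp only [F_zero, F_one, map_zero, mul_zero, pow_zero, sub_self, zero_add, map_one, mul_one, pow_one, true_and]
      have := two_eq_zero' (L := L)
      linear_combination s * this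
    | succ n ih =>
      refine ⟨ih.2, ?_⟩
      rw [F_succ, map_add, map_mul, aeval_X, mul_add, mul_left_comm, ih.2, ih.1]
      have := two_eq_zero' (L := L)
      have h1 : t * s ^ (n + 1) = s ^ n := by rw [pow_succ']; linear_combination s ^ n * hi
      have h2 : s * t ^ (n + 1) = t ^ n := by rw [pow_succ']; linear_combination t ^ n * hi
      have h3 : (t + s) * (t ^ (n + 1) - s ^ (n + 1)) = t ^ (n+2) + t ^ n - s ^ n - s ^ (n+2) := by
        linear_combination h2 - h1
      rw [h3]
      linear_combination (t ^ n - s ^ n) * this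
  exact (this n).1

/-- `2 ^ (3 ^ i) + 1` is `3 ^ (i+1)` times a number that is `1` modulo `3`. -/
theorem two_pow (i : ℕ) : ∃ k : ℕ, 2 ^ (3 ^ i) + 1 = 3 ^ (i + 1) * (3 * k + 1) := by
  induction i with
  | zero => exact ⟨0, by norm_num⟩
  | succ i ih =>
    obtain ⟨k, hk⟩ := ih
    have hz : ((2 : ℤ) ^ (3 ^ i)) = 3 ^ (i + 1) * (3 * k + 1) - 1 := by
      have : ((2 ^ (3 ^ i) + 1 : ℕ) : ℤ) = ((3 ^ (i + 1) * (3 * k + 1) : ℕ) : ℤ) := by rw [hk]
      push_cast at this
      linarith
    have hz2 : ((2 : ℤ) ^ (3 ^ (i + 1))) = (3 ^ (i + 1) * (3 * k + 1) - 1) ^ 3 := by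
      rw [pow_succ 3 i, pow_mul, hz]
    -- w = 3^(i+1) * (3k+1), (w-1)^3+1 = w^3 - 3 w^2 + 3 w = 3 w (w^2/3 - w + 1)
    set c : ℤ := 3 * k + 1 with hc
    have h3 : ((2 : ℤ) ^ (3 ^ (i + 1))) + 1 = 3 ^ (i + 2) * (c * (3 * (9 ^ i * c ^ 2) - 3 ^ (i + 1) * c + 1)) := by
      rw [hz2]
      have h9 : (9 : ℤ) ^ i = 3 ^ i * 3 ^ i := by
        rw [← mul_pow]; norm_num
      rw [h9]
      ring
    -- choose k'
    have h4 : ∃ m : ℤ, c * (3 * (9 ^ i * c ^ 2) - 3 ^ (i + 1) * c + 1) = 3 * m + 1 := by
      refine ⟨k + c * (9 ^ i * c ^ 2 - 3 ^ i * c), ?_⟩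
      rw [pow_succ]; rw [hc]; ring
    obtain ⟨m, hm⟩ := h4
    rw [hm] at h3
    have hpos : (0 : ℤ) < 3 ^ (i + 2) := by positivity
    have hm0 : 0 ≤ m := by
      by_contra hneg
      push Not at hneg
      have : (3 : ℤ) ^ (i + 2) * (3 * m + 1) < 0 := by
        apply mul_neg_of_pos_of_neg hpos; omega
      rw [← h3] at this
      have : (0 : ℤ) < 2 ^ (3 ^ (i + 1)) := by positivity
      linarith
    obtain ⟨k', rfl⟩ := Int.eq_ofNat_of_zero_le hm0
    refine ⟨k', ?_⟩
    exact_mod_cast h3

/-- key relation -/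
theorem key_rel {L : Type*} [Field L] [Algebra K L] (t : L) (ht : t ≠ 0) (i : ℕ)
    (h1 : t ^ (3 ^ (i + 2)) = 1) (h2 : t ^ (3 ^ (i + 1)) ≠ 1) :
    (t + t⁻¹) + (t + t⁻¹) ^ (2 ^ (3 ^ i)) + ((t + t⁻¹) ^ (2 ^ (3 ^ i))) ^ (2 ^ (3 ^ i)) = 0 := by
  have : CharP L 2 := by
    exact charP_of_injective_algebraMap (algebraMap K L).injective 2
  obtain ⟨k, hk⟩ := two_pow i
  have hi : t * t⁻¹ = 1 := mul_inv_cancel₀ ht
  set s := t⁻¹ with hs
  set w := t ^ (3 ^ (i + 1)) with hw
  have hw3 : w ^ 3 = 1 := by rw [hw, ← pow_mul, ← pow_succ]; exact h1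
  have hw2 : w ^ 2 + w + 1 = 0 := by
    have : (w - 1) * (w ^ 2 + w + 1) = 0 := by linear_combination hw3
    rcases mul_eq_zero.mp this with h | h
    · exact absurd (by linear_combination h) h2
    · exact h
  set Q := 2 ^ (3 ^ i) with hQ
  -- t^Q = w * s
  have htQ1 : t ^ (Q + 1) = w := by
    rw [hk, pow_mul, ← hw, pow_succ, pow_mul, hw3, one_pow, one_mul]
  have htQ : t ^ Q = w * s := by
    have : t ^ Q * t = w := by rw [← pow_succ]; exact htQ1
    calc t ^ Q = t ^ Q * t * s := by rw [mul_assoc, hi, mul_one]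
      _ = w * s := by rw [this]
  have hsw : s ^ (Q + 1) = w ^ 2 := by
    have h5 : t ^ (Q + 1) * s ^ (Q + 1) = 1 := by rw [← mul_pow, hi, one_pow]
    rw [htQ1] at h5
    calc s ^ (Q + 1) = w ^ 3 * s ^ (Q + 1) := by rw [hw3, one_mul]
      _ = w ^ 2 * (w * s ^ (Q + 1)) := by ring
      _ = w ^ 2 := by rw [h5, mul_one]
  have hsQ : s ^ Q = w ^ 2 * t := by
    have : s ^ Q * s = w ^ 2 := by rw [← pow_succ]; exact hsw
    calc s ^ Q = s ^ Q * s * t := by rw [mul_assoc, mul_comm s t, hi, mul_one]
      _ = w ^ 2 * t := by rw [this]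
  have hwQ : w ^ Q = w ^ 2 := by
    have h6 : w ^ (Q + 1) = 1 := by
      rw [hk, pow_succ 3 i, mul_comm (3 ^ i) 3, mul_assoc, pow_mul, hw3, one_pow]
    calc w ^ Q = w ^ 3 * w ^ Q := by rw [hw3, one_mul]
      _ = w ^ 2 * w ^ (Q + 1) := by ring
      _ = w ^ 2 := by rw [h6, mul_one]
  have e1 : (t + s) ^ Q = w * s + w ^ 2 * t := by
    rw [hQ, add_pow_char_pow, ← hQ, htQ, hsQ]
  have e2 : ((t + s) ^ Q) ^ Q = w * t + w ^ 2 * s := by
    rw [e1, hQ, add_pow_char_pow, ← hQ, mul_pow, mul_pow, ← pow_mul w 2, mul_comm 2 Q, pow_mul w Q,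
      hwQ, htQ, hsQ]
    have hw4 : w ^ 4 = w := by linear_combination w * hw3
    linear_combination t * hw4 + w * s * hw4
  rw [e2, e1]
  linear_combination (t + s) * hw2

def Z {L : Type*} [Field L] (i : ℕ) (b : L) : Prop :=
  b + b ^ (2 ^ (3 ^ i)) + (b ^ (2 ^ (3 ^ i))) ^ (2 ^ (3 ^ i)) = 0

theorem F_eval_zero (n : ℕ) : (F n).eval 0 = (n : K) := by
  have : ∀ n, (F n).eval 0 = (n : K) ∧ (F (n + 1)).eval 0 = ((n + 1 : ℕ) : K) := by
    intro n
    induction n with
    | zero => simp [F]
    | succ n ih =>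
      refine ⟨ih.2, ?_⟩
      rw [show n + 1 + 1 = n + 2 by ring, F_succ]
      simp only [eval_add, eval_mul, eval_X, zero_mul, zero_add, ih.1]
      push_cast
      have h : (2 : K) = 0 := by decide
      linear_combination -h
  exact (this n).1

theorem F_root_ne_zero {L : Type*} [Field L] [Algebra K L] (j : ℕ) (b : L)
    (hb : aeval b (F (3 ^ j)) = 0) : b ≠ 0 := by
  rintro rfl
  have h1 : aeval (0 : L) (F (3 ^ j)) = algebraMap K L ((F (3 ^ j)).eval 0) := by
    rw [← map_zero (algebraMap K L), aeval_algebraMap_apply, aeval_def, eval₂_eq_eval_map]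
    simp
  rw [h1, F_eval_zero] at hb
  have h2 : ((3 ^ j : ℕ) : K) = 1 := by
    push_cast
    have : (3 : K) = 1 := by decide
    rw [this, one_pow]
  rw [h2, map_one] at hb
  exact one_ne_zero hb

theorem root_cases {L : Type*} [Field L] [IsAlgClosed L] [Algebra K L] (j : ℕ) (b : L)
    (hb : aeval b (F (3 ^ j)) = 0) : b = 1 ∨ ∃ i, Z i b := by
  have two := two_eq_zero' (L := L)
  have hb0 := F_root_ne_zero j b hb
  obtain ⟨t, ht⟩ : ∃ t : L, t ^ 2 - b * t + 1 = 0 := by
    have hdeg : (X ^ 2 - C b * X + C 1 : L[X]).degree = 2 := by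
      have := degree_quadratic (R := L) (a := 1) (b := -b) (c := 1) one_ne_zero
      rw [← this]; congr 1; simp; ring
    obtain ⟨t, ht⟩ := IsAlgClosed.exists_root (X ^ 2 - C b * X + C 1 : L[X]) (by rw [hdeg]; decide)
    exact ⟨t, by simpa [IsRoot] using ht⟩
  have ht0 : t ≠ 0 := by rintro rfl; simp at ht
  have hbt : b = t + t⁻¹ := by
    field_simp
    linear_combination -ht
  have hi : t * t⁻¹ = 1 := mul_inv_cancel₀ ht0
  have h1 := F_eval t ht0 (3 ^ j)
  rw [← hbt, hb, mul_zero] at h1
  have h2 : t ^ (3 ^ j) = 1 := by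
    have h3 : t ^ (3 ^ j) * (t⁻¹) ^ (3 ^ j) = 1 := by rw [← mul_pow, hi, one_pow]
    generalize t ^ (3 ^ j) = x at *
    generalize (t⁻¹) ^ (3 ^ j) = y at *
    have h4 : (x - 1) ^ 2 = 0 := by linear_combination h3 - x * h1 + (1 - x) * two
    have := pow_eq_zero_iff (two_ne_zero) |>.mp h4
    linear_combination this
  classical
  have hex : ∃ a, t ^ (3 ^ a) = 1 := ⟨j, h2⟩
  have ha := Nat.find_spec hex
  have hmin := fun m => Nat.find_min hex (m := m)
  rcases hn : Nat.find hex with _ | _ | i
  · rw [hn] at ha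
    simp only [pow_zero, pow_one] at ha
    exfalso; apply hb0; rw [hbt, ha]; simp; linear_combination two
  · rw [hn] at ha hmin
    left
    have h5 : t ≠ 1 := by
      have := hmin 0 (by norm_num)
      simpa using this
    have h6 : t ^ 3 = 1 := by simpa using ha
    have h7 : t ^ 2 + t + 1 = 0 := by
      have : (t - 1) * (t ^ 2 + t + 1) = 0 := by linear_combination h6
      rcases mul_eq_zero.mp this with h | h
      · exact absurd (by linear_combination h) h5
      · exact h
    have h8 : t⁻¹ = t ^ 2 := by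
      field_simp
      linear_combination -h6
    rw [hbt, h8]
    linear_combination h7 - two
  · rw [hn] at ha hmin
    right
    refine ⟨i, ?_⟩
    unfold Z
    rw [hbt]
    exact key_rel t ht0 i ha (hmin (i + 1) (by omega))

theorem no_both {L : Type*} [Field L] [Algebra K L] (b c : L) (hbc : c = b + 1) (hc0 : c ≠ 0)
    (i k : ℕ) (hik : i ≤ k) (hb : Z i b) (hc : Z k c) : False := by
  have two := two_eq_zero' (L := L)
  have hch : CharP L 2 := by
    exact charP_of_injective_algebraMap (algebraMap K L).injective 2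
  have hadd : ∀ (m : ℕ) (x y : L), (x + y) ^ (2 ^ m) = x ^ (2 ^ m) + y ^ (2 ^ m) :=
    fun m x y => add_pow_char_pow x y 2 m
  rcases Nat.eq_or_lt_of_le hik with rfl | hlt
  · unfold Z at hb hc
    rw [hbc, hadd, hadd, one_pow, one_pow] at hc
    exact one_ne_zero (α := L) (by linear_combination hc - hb - two)
  · -- b ^ (2 ^ 3 ^ (i+1)) = b
    have h1 : b ^ (2 ^ (3 ^ (i + 1))) = b := by
      have e : (2 ^ (3 ^ (i + 1))) = (2 ^ (3 ^ i)) * (2 ^ (3 ^ i)) * (2 ^ (3 ^ i)) := by
        rw [← pow_add, ← pow_add]; congr 1; ring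
      rw [e, pow_mul, pow_mul]
      unfold Z at hb
      have h2 : (b ^ (2 ^ (3 ^ i))) ^ (2 ^ (3 ^ i)) = b + b ^ (2 ^ (3 ^ i)) := by
        linear_combination hb - (b + b ^ (2 ^ (3 ^ i))) * two
      rw [h2, hadd, h2]
      linear_combination (b ^ (2 ^ (3 ^ i))) * two
    have h2 : c ^ (2 ^ (3 ^ (i + 1))) = c := by
      rw [hbc, hadd, h1, one_pow]
    have h3 : ∀ m, c ^ (2 ^ (3 ^ (i + 1 + m))) = c := by
      intro m
      induction m with
      | zero => exact h2
      | succ m ih =>
        have e : (2 ^ (3 ^ (i + 1 + (m + 1)))) = (2 ^ (3 ^ (i + 1 + m))) * (2 ^ (3 ^ (i + 1 + m))) * (2 ^ (3 ^ (i + 1 + m))) := by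
          rw [← pow_add, ← pow_add]; congr 1; ring
        rw [e, pow_mul, pow_mul, ih, ih, ih]
    obtain ⟨m, rfl⟩ := Nat.exists_eq_add_of_le (show i + 1 ≤ k from hlt)
    unfold Z at hc
    rw [h3 m, h3 m] at hc
    exact hc0 (by linear_combination hc - c * two)

/-- main coprimality -/
theorem coprime_shift (j : ℕ) :
    IsCoprime (F (3 ^ j)) ((F (3 ^ j)).comp (X + 1)) := by
  rw [Polynomial.isCoprime_iff_aeval_ne_zero_of_isAlgClosed (k := K) (AlgebraicClosure K)]
  intro b
  by_contra hcon
  push Not at hcon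
  obtain ⟨hb, hc⟩ := hcon
  rw [aeval_comp] at hc
  simp only [map_add, aeval_X, map_one] at hc
  have two := two_eq_zero' (L := AlgebraicClosure K)
  have hb0 := F_root_ne_zero j b hb
  have hc0 := F_root_ne_zero j _ hc
  rcases root_cases j b hb with h | ⟨i, hi⟩
  · apply hc0; rw [h]; linear_combination two
  rcases root_cases j _ hc with h | ⟨k, hk⟩
  · apply hb0; linear_combination h
  rcases le_total i k with hik | hik
  · exact no_both b (b + 1) rfl hc0 i k hik hi hk
  · exact no_both (b + 1) b (by linear_combination -two) hb0 k i hik hk hi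


/-! ### linear algebra -/

def ext {n : ℕ} (v : Fin n → K) (j : ℕ) : K := if h : 1 ≤ j ∧ j ≤ n then v ⟨j - 1, by omega⟩ else 0

theorem ext_zero {n : ℕ} (v : Fin n → K) : ext v 0 = 0 := by simp [ext]
theorem ext_last {n : ℕ} (v : Fin n → K) : ext v (n + 1) = 0 := by simp [ext]
theorem ext_succ {n : ℕ} (v : Fin n → K) (j : Fin n) : ext v (j.val + 1) = v j := by
  have : 1 ≤ j.val + 1 ∧ j.val + 1 ≤ n := ⟨by omega, j.isLt⟩
  simp [ext, this]
theorem ext_succ' {n : ℕ} (v : Fin n → K) (j : ℕ) (h : j < n) : ext v (j + 1) = v ⟨j, h⟩ :=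
  ext_succ v ⟨j, h⟩

/-- the path operator -/
def P (n : ℕ) : (Fin n → K) →ₗ[K] (Fin n → K) where
  toFun v := fun j => ext v j.val + ext v (j.val + 2)
  map_add' v w := by
    funext j
    simp only [ext, Pi.add_apply]
    split_ifs <;> ring
  map_smul' c v := by
    funext j
    simp only [ext, Pi.smul_apply, smul_eq_mul, RingHom.id_apply]
    split_ifs <;> ring

theorem P_apply {n : ℕ} (v : Fin n → K) (j : Fin n) : P n v j = ext v j.val + ext v (j.val + 2) := rfl

/-- standard vectors -/
def E (n : ℕ) (i : ℕ) : Fin n → K := fun j => if j.val + 1 = i then 1 else 0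

theorem P_E (n i : ℕ) (hi : i + 1 ≤ n) : P n (E n (i + 1)) = E n i + E n (i + 2) := by
  funext j
  have hj := j.isLt
  rw [P_apply]
  simp only [ext, E, Pi.add_apply]
  rw [add_comm]
  congr 1
  · by_cases h : j.val + 1 = i
    · rw [if_pos h, dif_pos (by omega), if_pos (by simp; omega)]
    · rw [if_neg h]
      split_ifs with h1 h2
      · exfalso; simp at h2; omega
      · rfl
      · rfl
  · by_cases h : j.val = i + 1
    · rw [if_pos (by omega), dif_pos (by omega), if_pos (by simp; omega)]
    · rw [if_neg (by omega)]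
      split_ifs with h1 h2
      · exfalso; simp at h2; omega
      · rfl
      · rfl

theorem two_smul_zero {n : ℕ} (v : Fin n → K) : v + v = 0 := by
  funext j
  simp only [Pi.add_apply, Pi.zero_apply]
  have h : (2 : K) = 0 := by decide
  linear_combination (v j) * h

theorem E_eq (n : ℕ) : ∀ i, i ≤ n → E n i = aeval (P n) (F i) (E n 1) ∧
    E n (i + 1) = aeval (P n) (F (i + 1)) (E n 1) := by
  intro i
  induction i with
  | zero =>
    intro _
    refine ⟨?_, by simp [F]⟩
    rw [F_zero, map_zero]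
    funext j; simp [E]
  | succ i ih =>
    intro hi
    obtain ⟨h1, h2⟩ := ih (by omega)
    refine ⟨h2, ?_⟩
    rw [show i + 1 + 1 = i + 2 by ring, F_succ, map_add, map_mul, aeval_X, LinearMap.add_apply,
      Module.End.mul_apply, ← h1, ← h2, P_E n i hi]
    rw [add_right_comm, two_smul_zero, zero_add]

theorem F_P_zero (n : ℕ) : aeval (P n) (F (n + 1)) = 0 := by
  have h0 : aeval (P n) (F (n + 1)) (E n 1) = 0 := by
    rw [← (E_eq n n le_rfl).2]
    funext j
    have := j.isLt
    simp only [E, Pi.zero_apply]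
    rw [if_neg (by omega)]
  apply (Pi.basisFun K (Fin n)).ext
  intro i
  have h1 : (Pi.basisFun K (Fin n)) i = aeval (P n) (F (i.val + 1)) (E n 1) := by
    rw [← (E_eq n i.val i.isLt.le).2]
    funext j
    simp only [Pi.basisFun_apply, E, Pi.single_apply]
    congr 1
    simp only [Fin.ext_iff, eq_iff_iff]
    omega
  rw [h1, ← Module.End.mul_apply, ← map_mul, mul_comm, map_mul, Module.End.mul_apply, h0, map_zero]
  rfl

/-- eigenspaces of the path operator are one dimensional -/
theorem ker_dim (n : ℕ) (hn : 0 < n) (c : K) (hc : (F (n + 1)).eval c = 0) :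
    Module.finrank K (LinearMap.ker (aeval (P n) (X + C c : K[X]))) = 1 := by
  set u : Fin n → K := fun j => (F (j.val + 1)).eval c with hu
  have hun : u ≠ 0 := by
    intro h
    have := congrFun h ⟨0, hn⟩
    simp [hu, F] at this
  have h2 : (2 : K) = 0 := by decide
  have hext : ∀ j, j ≤ n + 1 → ext u j = (F j).eval c := by
    intro j hj
    rcases j with _ | j
    · rw [ext_zero, F_zero]; simp
    · rcases Nat.lt_or_ge j n with h | h
      · rw [ext_succ' u j h]
      · have : j = n := by omega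
        subst this
        rw [ext_last, hc]
  have hker : LinearMap.ker (aeval (P n) (X + C c : K[X])) = Submodule.span K {u} := by
    ext v
    rw [LinearMap.mem_ker, Submodule.mem_span_singleton]
    have hform : ∀ (v : Fin n → K) (j : Fin n), (aeval (P n) (X + C c : K[X]) v) j =
        ext v j.val + ext v (j.val + 2) + c * ext v (j.val + 1) := by
      intro v j
      rw [map_add, aeval_X, aeval_C, LinearMap.add_apply, Pi.add_apply, P_apply, ext_succ]
      rfl
    constructor
    · intro hv
      refine ⟨ext v 1, ?_⟩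
      have hj : ∀ j, j ≤ n → ext v j = (F j).eval c * ext v 1 ∧ ext v (j + 1) = (F (j + 1)).eval c * ext v 1 := by
        intro j
        induction j with
        | zero => intro _; simp [F, ext_zero]
        | succ j ih =>
          intro hj
          obtain ⟨i1, i2⟩ := ih (by omega)
          refine ⟨i2, ?_⟩
          have h3 := hform v ⟨j, by omega⟩
          rw [hv] at h3
          simp only [Pi.zero_apply] at h3
          rw [show j + 1 + 1 = j + 2 by ring, F_succ, eval_add, eval_mul, eval_X, add_mul, mul_assoc, ← i1, ← i2]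
          linear_combination h3 + (ext v (j + 2)) * h2
      funext j
      rw [Pi.smul_apply, smul_eq_mul, hu, mul_comm]
      have := (hj j.val j.isLt.le).2
      rw [ext_succ] at this
      exact this.symm
    · rintro ⟨a, rfl⟩
      rw [map_smul]
      have : aeval (P n) (X + C c : K[X]) u = 0 := by
        funext j
        have hj := j.isLt
        rw [hform, hext _ (by omega), hext _ (by omega), hext _ (by omega), F_succ, eval_add, eval_mul, eval_X]
        simp only [Pi.zero_apply]
        linear_combination (eval c (F j.val) + c * eval c (F (j.val + 1))) * h2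
      rw [this, smul_zero]
  rw [hker, finrank_span_singleton hun]


/-- Two cells of the `n × n` grid are adjacent when they differ by `1` in exactly one coordinate. -/
def Adjacent {n : ℕ} (c c' : Fin n × Fin n) : Prop :=
  (c.1 = c'.1 ∧ (c.2.val + 1 = c'.2.val ∨ c'.2.val + 1 = c.2.val)) ∨
    (c.2 = c'.2 ∧ (c.1.val + 1 = c'.1.val ∨ c'.1.val + 1 = c.1.val))

instance {n : ℕ} (c c' : Fin n × Fin n) : Decidable (Adjacent c c') := by
  unfold Adjacent; infer_instance

/-- The Lights Out matrix of the `n × n` grid over `F_2`. -/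
def lightsOut (n : ℕ) : Matrix (Fin n × Fin n) (Fin n × Fin n) (ZMod 2) :=
  fun c c' => if c = c' ∨ Adjacent c c' then 1 else 0

/-- The nullity `d(n)` of the `n × n` grid. -/
noncomputable def nullity (n : ℕ) : ℕ :=
  Module.finrank (ZMod 2) (LinearMap.ker (lightsOut n).mulVecLin)

theorem sum_next {n : ℕ} (g : Fin n → K) (a : Fin n) :
    (∑ b : Fin n, if a.val + 1 = b.val then g b else 0) = ext g (a.val + 2) := by
  by_cases h : a.val + 1 < n
  · rw [Finset.sum_eq_single ⟨a.val + 1, h⟩]
    · rw [if_pos rfl, ext_succ' g (a.val + 1) h]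
    · intro b _ hb
      rw [if_neg]
      intro h1; exact hb (by rw [Fin.ext_iff]; simpa using h1.symm)
    · simp
  · have : a.val + 1 = n := by have := a.isLt; omega
    rw [show a.val + 2 = n + 1 by omega, ext_last]
    apply Finset.sum_eq_zero
    intro b _
    rw [if_neg]; have := b.isLt; omega

theorem sum_prev {n : ℕ} (g : Fin n → K) (a : Fin n) :
    (∑ b : Fin n, if b.val + 1 = a.val then g b else 0) = ext g a.val := by
  rcases ha : a.val with _ | m
  · rw [ext_zero]
    apply Finset.sum_eq_zero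
    intro b _
    rw [if_neg]; omega
  · have hm : m < n := by have := a.isLt; omega
    rw [Finset.sum_eq_single ⟨m, hm⟩]
    · rw [if_pos rfl, ext_succ' g m hm]
    · intro b _ hb
      rw [if_neg]
      intro h1; exact hb (by rw [Fin.ext_iff]; simp; omega)
    · simp

theorem entry {n : ℕ} (c c' : Fin n × Fin n) : lightsOut n c c' =
    (if c = c' then 1 else 0) + (if c.1 = c'.1 then (if c.2.val + 1 = c'.2.val then 1 else 0) else 0)
    + (if c.1 = c'.1 then (if c'.2.val + 1 = c.2.val then 1 else 0) else 0)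
    + (if c.2 = c'.2 then (if c.1.val + 1 = c'.1.val then 1 else 0) else 0)
    + (if c.2 = c'.2 then (if c'.1.val + 1 = c.1.val then 1 else 0) else 0) := by
  obtain ⟨i, j⟩ := c
  obtain ⟨i', j'⟩ := c'
  simp only [lightsOut, Adjacent, Prod.mk.injEq]
  by_cases hi : i = i'
  · subst hi
    by_cases hj : j = j'
    · subst hj; simp
    · have hj' : j.val ≠ j'.val := fun h => hj (Fin.ext h)
      by_cases h1 : j.val + 1 = j'.val
      · simp [hj, h1]; omega
      · by_cases h2 : j'.val + 1 = j.val
        · simp [hj, h1, h2]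
        · simp [hj, h1, h2]
  · by_cases hj : j = j'
    · subst hj
      have hi' : i.val ≠ i'.val := fun h => hi (Fin.ext h)
      by_cases h1 : i.val + 1 = i'.val
      · simp [hi, h1]; omega
      · by_cases h2 : i'.val + 1 = i.val
        · simp [hi, h1, h2]
        · simp [hi, h1, h2]
    · simp [hi, hj]

theorem mulVec_apply {n : ℕ} (v : Fin n × Fin n → K) (i j : Fin n) :
    (lightsOut n).mulVecLin v (i, j) = v (i, j) + P n (fun b => v (i, b)) j
      + ext (fun a => v (a, j)) i.val + ext (fun a => v (a, j)) (i.val + 2) := by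
  rw [Matrix.mulVecLin_apply, Matrix.mulVec, dotProduct]
  simp only [entry, add_mul, ite_mul, one_mul, zero_mul, Finset.sum_add_distrib]
  rw [Finset.sum_ite_eq, if_pos (Finset.mem_univ _)]
  simp only [Fintype.sum_prod_type]
  have e1 : (∑ x : Fin n, ∑ x_1 : Fin n, if i = x then (if j.val + 1 = x_1.val then v (x, x_1) else 0) else 0)
      = ext (fun b => v (i, b)) (j.val + 2) := by
    rw [Finset.sum_comm]
    simp only [Finset.sum_ite_eq, Finset.mem_univ, if_true]
    exact sum_next _ _
  have e2 : (∑ x : Fin n, ∑ x_1 : Fin n, if i = x then (if x_1.val + 1 = j.val then v (x, x_1) else 0) else 0)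
      = ext (fun b => v (i, b)) j.val := by
    rw [Finset.sum_comm]
    simp only [Finset.sum_ite_eq, Finset.mem_univ, if_true]
    exact sum_prev _ _
  have e3 : (∑ x : Fin n, ∑ x_1 : Fin n, if j = x_1 then (if i.val + 1 = x.val then v (x, x_1) else 0) else 0)
      = ext (fun a => v (a, j)) (i.val + 2) := by
    simp only [Finset.sum_ite_eq, Finset.mem_univ, if_true]
    exact sum_next (fun a => v (a, j)) _
  have e4 : (∑ x : Fin n, ∑ x_1 : Fin n, if j = x_1 then (if x.val + 1 = i.val then v (x, x_1) else 0) else 0)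
      = ext (fun a => v (a, j)) i.val := by
    simp only [Finset.sum_ite_eq, Finset.mem_univ, if_true]
    exact sum_prev (fun a => v (a, j)) _
  rw [e1, e2, e3, e4, P_apply]
  ring

/-- the first row determines a kernel vector -/
noncomputable def Psi (n : ℕ) : (Fin n → K) →ₗ[K] (Fin n × Fin n → K) where
  toFun w := fun c => (aeval (1 + P n) (F (c.1.val + 1)) w) c.2
  map_add' v w := by funext c; simp
  map_smul' a v := by funext c; simp

theorem nullity_eq (n : ℕ) (hn : 0 < n) :
    nullity n = Module.finrank K (LinearMap.ker (aeval (1 + P n) (F (n + 1)))) := by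
  have hinj : Function.Injective (Psi n) := by
    rw [injective_iff_map_eq_zero]
    intro w hw
    funext j
    have := congrFun hw (⟨0, hn⟩, j)
    simpa [Psi, F] using this
  have h2 : (2 : K) = 0 := by decide
  have hmap : LinearMap.ker (lightsOut n).mulVecLin =
      (LinearMap.ker (aeval (1 + P n) (F (n + 1)))).map (Psi n) := by
    ext v
    rw [Submodule.mem_map, LinearMap.mem_ker]
    constructor
    · intro hv
      -- rows
      set R : ℕ → (Fin n → K) := fun i => fun j => ext (fun a => v (a, j)) i with hR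
      have hR0 : R 0 = 0 := by funext j; simp [hR, ext_zero]
      have hRl : R (n + 1) = 0 := by funext j; simp [hR, ext_last]
      have hRs : ∀ i (hi : i < n), R (i + 1) = fun j => v (⟨i, hi⟩, j) := by
        intro i hi; funext j; simp only [hR]; rw [ext_succ' _ i hi]
      have hrec : ∀ i, i < n → R (i + 2) = (1 + P n) (R (i + 1)) + R i := by
        intro i hi
        have h3 := fun j => congrFun hv (⟨i, hi⟩, j)
        simp only [mulVec_apply, Pi.zero_apply] at h3
        funext j
        rw [LinearMap.add_apply, Module.End.one_apply, hRs i hi]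
        simp only [Pi.add_apply, hR]
        linear_combination h3 j - (v (⟨i, hi⟩, j) + P n (fun b => v (⟨i, hi⟩, b)) j + ext (fun a => v (a, j)) i) * h2
      have hall : ∀ i, i ≤ n → R i = aeval (1 + P n) (F i) (R 1) ∧
          R (i + 1) = aeval (1 + P n) (F (i + 1)) (R 1) := by
        intro i
        induction i with
        | zero => intro _; simp [F, hR0]
        | succ i ih =>
          intro hi
          obtain ⟨i1, i2⟩ := ih (by omega)
          refine ⟨i2, ?_⟩
          rw [show i + 1 + 1 = i + 2 by ring, F_succ, map_add, map_mul, aeval_X,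
            LinearMap.add_apply, Module.End.mul_apply, ← i1, ← i2]
          exact hrec i (by omega)
      refine ⟨R 1, ?_, ?_⟩
      · rw [LinearMap.mem_ker, ← (hall n le_rfl).2, hRl]
      · funext c
        have h4 := (hall c.1.val c.1.isLt.le).2
        show (aeval (1 + P n) (F (c.1.val + 1)) (R 1)) c.2 = v c
        rw [← h4, hRs c.1.val c.1.isLt]
    · rintro ⟨w, hw, rfl⟩
      rw [LinearMap.mem_ker] at hw
      funext ⟨i, j⟩
      rw [mulVec_apply, Pi.zero_apply]
      have hext : ∀ m, m ≤ n + 1 → ext (fun a => Psi n w (a, j)) m = (aeval (1 + P n) (F m) w) j := by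
        intro m hm
        rcases m with _ | m
        · simp [ext_zero, F]
        · rcases Nat.lt_or_ge m n with h | h
          · rw [ext_succ' _ m h]; rfl
          · have : m = n := by omega
            subst this
            rw [ext_last, hw]; rfl
      have hi := i.isLt
      rw [hext _ (by omega), hext _ (by omega), F_succ, map_add, map_mul, aeval_X,
        LinearMap.add_apply, Module.End.mul_apply, LinearMap.add_apply, Module.End.one_apply]
      have e1 : Psi n w (i, j) = (aeval (1 + P n) (F (i.val + 1)) w) j := rfl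
      have e2 : (fun b => Psi n w (i, b)) = (aeval (1 + P n) (F (i.val + 1)) w) := rfl
      rw [e1, e2]
      simp only [Pi.add_apply]
      linear_combination ((aeval (1 + P n) (F (i.val + 1)) w) j + P n (aeval (1 + P n) (F (i.val + 1)) w) j
        + (aeval (1 + P n) (F i.val) w) j) * h2
  unfold nullity
  rw [hmap]
  exact ((Submodule.equivMapOfInjective (Psi n) hinj _).finrank_eq).symm

theorem nullity_family (j : ℕ) : nullity (2 * 3 ^ (j + 1) - 1) = 2 := by
  set M := 3 ^ (j + 1) with hM
  have hM3 : M = 3 * 3 ^ j := by rw [hM, pow_succ]; ring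
  have hMpos : 0 < 3 ^ j := by positivity
  set n := 2 * M - 1 with hn
  have hn1 : n + 1 = 2 * M := by omega
  have hnpos : 0 < n := by omega
  rw [nullity_eq n hnpos]
  have two := two_eq_zero
  have hker : LinearMap.ker (aeval (1 + P n) (F (n + 1))) =
      LinearMap.ker (aeval (P n) (((X + C 0) * (X + C 1)) : K[X])) := by
    have hcomp : aeval (1 + P n) (F (n + 1)) = aeval (P n) ((F (n + 1)).comp (X + 1)) := by
      rw [aeval_comp]; congr 2; simp [add_comm]
    rw [hcomp]
    have hF : F (n + 1) = X * F M ^ 2 := by rw [hn1]; exact (F_double M).1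
    have hFc : (F (n + 1)).comp (X + 1) = (X + 1) * ((F M).comp (X + 1)) ^ 2 := by
      rw [hF]; simp
    have hX : (X : K[X]) ∣ (F M).comp (X + 1) := by
      have : (F M).eval 1 = 0 := by rw [hM3]; exact F_eval_one _
      rw [X_dvd_iff, coeff_zero_eq_eval_zero, eval_comp]
      simpa using this
    obtain ⟨g, hg⟩ := hX
    obtain ⟨a, b, hab⟩ := (coprime_shift (j + 1)).pow (m := 2) (n := 2)
    rw [← hM] at hab
    ext v
    rw [LinearMap.mem_ker, LinearMap.mem_ker]
    constructor
    · intro hv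
      have hid : ((X + C 0) * (X + C 1) : K[X]) = ((X + 1) * a) * F (n + 1) + (X * b) * ((F (n + 1)).comp (X + 1)) := by
        rw [hFc, hF, C_0, C_1]
        linear_combination (-(X * (X + 1) : K[X])) * hab
      rw [hid, map_add, LinearMap.add_apply, map_mul (aeval (P n)) (X * b), Module.End.mul_apply, hv,
        map_zero, add_zero, map_mul, F_P_zero, Module.End.mul_apply, LinearMap.zero_apply, map_zero]
    · intro hv
      have hid : (F (n + 1)).comp (X + 1) = (X * g ^ 2) * ((X + C 0) * (X + C 1) : K[X]) := by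
        rw [hFc, hg, C_0, C_1]; ring
      rw [hid, map_mul, Module.End.mul_apply, hv, map_zero]
  rw [hker]
  have hcop : IsCoprime (X + C 0 : K[X]) (X + C 1) := by
    refine ⟨1, 1, ?_⟩
    rw [C_0, C_1]; linear_combination X * two
  rw [← sup_ker_aeval_eq_ker_aeval_mul_of_coprime (P n) hcop]
  have hd := disjoint_ker_aeval_of_isCoprime (P n) hcop
  have hsum := Submodule.finrank_sup_add_finrank_inf_eq (LinearMap.ker (aeval (P n) (X + C 0 : K[X])))
    (LinearMap.ker (aeval (P n) (X + C 1 : K[X])))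
  rw [hd.eq_bot, finrank_bot, add_zero] at hsum
  rw [hsum, ker_dim n hnpos 0, ker_dim n hnpos 1]
  · rw [hn1, hM3, show 2 * (3 * 3 ^ j) = 3 * (2 * 3 ^ j) by ring]; exact F_eval_one _
  · rw [hn1, F_eval_zero]
    push_cast
    have h2 : (2 : K) = 0 := by decide
    rw [h2, zero_mul]

/-- **Main result.** The `n × n` Lights Out grid has nullity exactly two for `n = 2·3^k - 1`, `k ≥ 1`;
in particular there are infinitely many positive integers `n` with `d(n) = 2`. -/
theorem result : (∀ k : ℕ, 1 ≤ k → nullity (2 * 3 ^ k - 1) = 2) ∧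
    {n : ℕ | 0 < n ∧ nullity n = 2}.Infinite := by
  have h1 : ∀ k : ℕ, 1 ≤ k → nullity (2 * 3 ^ k - 1) = 2 := by
    intro k hk
    obtain ⟨j, rfl⟩ := Nat.exists_eq_add_of_le' hk
    exact nullity_family j
  refine ⟨h1, ?_⟩
  have hinj : Function.Injective (fun k : ℕ => 2 * 3 ^ (k + 1) - 1) := by
    intro a b hab
    simp only at hab
    have ha : 0 < 3 ^ (a + 1) := by positivity
    have hb : 0 < 3 ^ (b + 1) := by positivity
    have : 3 ^ (a + 1) = 3 ^ (b + 1) := by omega
    have := Nat.pow_right_injective (le_refl 2 |>.trans (by norm_num : 2 ≤ 3)) this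
    omega
  refine (Set.infinite_range_of_injective hinj).mono ?_
  rintro _ ⟨k, rfl⟩
  refine ⟨?_, h1 (k + 1) (by omega)⟩
  have hb : 0 < 3 ^ (k + 1) := by positivity
  show 0 < 2 * 3 ^ (k + 1) - 1
  omega

end Pool.Agent.Results.MP_222d4b_co.NullityTwo
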